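import Mathlib
import Pool.Agent.W634.BQ.Stms

/-!
# BQ-KEY, part 1: basic facts on the Hilbert space of an invariant mean (MP_31db24_co)
-/

set_option autoImplicit false
open MeasureTheory Filter Topology Finset
open scoped BoundedContinuousFunction

namespace Pool.Agent.W932.BQ

open Pool.Agent.W634.BQ

variable {H : Type} [NormedAddCommGroup H] [InnerProductSpace ℂ H]

/-- the data of `S_gns` -/
structure Gns (m : (ℤ →ᵇ ℝ) →ₗ[ℝ] ℝ) (U : H ≃ₗᵢ[ℂ] H) (ι : (ℤ →ᵇ ℂ) →ₗ[ℂ] H) : Prop where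
  mean : IsMean m
  inn : ∀ f g : ℤ →ᵇ ℂ, inner ℂ (ι f) (ι g) =
        ((m (cre (star f * g)) : ℝ) : ℂ) + ((m (cim (star f * g)) : ℝ) : ℂ) * Complex.I
  shf : ∀ f, U (ι f) = ι (sh 1 f)
  eig : ∀ (θ : Circle) (v : H), U v = (θ : ℂ) • v → ∃ c : ℂ, v = c • ι (chr θ)

/-- complexification -/
noncomputable def cx (f : ℤ →ᵇ ℝ) : ℤ →ᵇ ℂ :=
  BoundedContinuousFunction.ofNormedAddCommGroupDiscrete (fun n => ((f n : ℝ) : ℂ)) ‖f‖ (by
    intro x
    rw [Complex.norm_real]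
    exact f.norm_coe_le_norm x)

theorem cx_apply (f : ℤ →ᵇ ℝ) (n : ℤ) : cx f n = ((f n : ℝ) : ℂ) := rfl

theorem cre_apply (f : ℤ →ᵇ ℂ) (n : ℤ) : cre f n = (f n).re := rfl

theorem cim_apply (f : ℤ →ᵇ ℂ) (n : ℤ) : cim f n = (f n).im := rfl

theorem sh_apply {β : Type} [PseudoMetricSpace β] (k : ℤ) (f : ℤ →ᵇ β) (n : ℤ) :
    sh k f n = f (n + k) := rfl

theorem chr_apply (θ : Circle) (n : ℤ) : chr θ n = ((θ ^ n : Circle) : ℂ) := rfl

theorem ind_apply (A : Set ℤ) (n : ℤ) : ind A n = A.indicator (fun _ => (1 : ℝ)) n := rfl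

theorem cre_cx (f : ℤ →ᵇ ℝ) : cre (cx f) = f := by
  ext n
  rfl

theorem cim_cx (f : ℤ →ᵇ ℝ) : cim (cx f) = 0 := by
  ext n
  rfl

theorem cx_mul (f g : ℤ →ᵇ ℝ) : cx (f * g) = cx f * cx g := by
  ext n
  simp [cx_apply]

theorem cx_one : cx 1 = 1 := by
  ext n
  simp [cx_apply]

theorem star_cx (f : ℤ →ᵇ ℝ) : star (cx f) = cx f := by
  ext n
  simp [cx_apply]

theorem sh_cx (k : ℤ) (f : ℤ →ᵇ ℝ) : sh k (cx f) = cx (sh k f) := by
  ext n
  rfl

theorem chr_one : chr 1 = 1 := by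
  ext n
  simp [chr_apply]

theorem sh_zero (f : ℤ →ᵇ ℂ) : sh 0 f = f := by
  ext n
  simp [sh_apply]

theorem sh_sh (j k : ℤ) (f : ℤ →ᵇ ℂ) : sh j (sh k f) = sh (j + k) f := by
  ext n
  simp [sh_apply, add_assoc]

theorem star_chr_mul (θ : Circle) : star (chr θ) * chr θ = 1 := by
  ext n
  simp only [BoundedContinuousFunction.coe_mul, Pi.mul_apply, BoundedContinuousFunction.coe_star,
    Pi.star_apply, chr_apply, BoundedContinuousFunction.coe_one, Pi.one_apply]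
  rw [RCLike.star_def, Complex.conj_mul', Circle.norm_coe]
  norm_num

namespace Gns

variable {m : (ℤ →ᵇ ℝ) →ₗ[ℝ] ℝ} {U : H ≃ₗᵢ[ℂ] H} {ι : (ℤ →ᵇ ℂ) →ₗ[ℂ] H}

theorem inn1 (h : Gns m U ι) (f : ℤ →ᵇ ℂ) : inner ℂ (ι 1) (ι f) =
    ((m (cre f) : ℝ) : ℂ) + ((m (cim f) : ℝ) : ℂ) * Complex.I := by
  rw [h.inn, star_one, one_mul]

theorem inn2 (h : Gns m U ι) (f g : ℤ →ᵇ ℂ) :
    inner ℂ (ι f) (ι g) = inner ℂ (ι 1) (ι (star f * g)) := by
  rw [h.inn1, h.inn]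

theorem inn_cx (h : Gns m U ι) (f : ℤ →ᵇ ℝ) : inner ℂ (ι 1) (ι (cx f)) = ((m f : ℝ) : ℂ) := by
  rw [h.inn1, cre_cx, cim_cx, map_zero]
  simp

theorem inn_one (h : Gns m U ι) : inner ℂ (ι 1) (ι 1) = (1 : ℂ) := by
  have := h.inn_cx 1
  rwa [cx_one, h.mean.one, Complex.ofReal_one] at this

theorem mono (h : Gns m U ι) {f g : ℤ →ᵇ ℝ} (hfg : ∀ n, f n ≤ g n) : m f ≤ m g := by
  have := h.mean.pos (g - f) (fun n => by simpa using hfg n)
  rw [map_sub] at this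
  linarith

theorem norm_le (h : Gns m U ι) (f : ℤ →ᵇ ℂ) : ‖ι f‖ ≤ ‖f‖ := by
  have h2 : ‖ι f‖ ^ 2 = m (cre (star f * f)) := by
    rw [← inner_self_eq_norm_sq (𝕜 := ℂ), h.inn]
    simp
  have h3 : m (cre (star f * f)) ≤ m (‖f‖ ^ 2 • (1 : ℤ →ᵇ ℝ)) := by
    apply h.mono
    intro n
    simp only [cre_apply, BoundedContinuousFunction.coe_mul, Pi.mul_apply,
      BoundedContinuousFunction.coe_star, Pi.star_apply, BoundedContinuousFunction.coe_smul,
      BoundedContinuousFunction.coe_one, Pi.one_apply, smul_eq_mul, mul_one]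
    have h4 : (star (f n) * f n) = ((‖f n‖ ^ 2 : ℝ) : ℂ) := by
      rw [RCLike.star_def, ← Complex.normSq_eq_conj_mul_self, Complex.normSq_eq_norm_sq]
    rw [h4, Complex.ofReal_re]
    exact pow_le_pow_left₀ (norm_nonneg _) (f.norm_coe_le_norm n) 2
  rw [map_smul, h.mean.one, smul_eq_mul, mul_one, ← h2] at h3
  exact le_of_sq_le_sq h3 (norm_nonneg _)

theorem zpow (h : Gns m U ι) (j : ℤ) (f : ℤ →ᵇ ℂ) : (U ^ j) (ι f) = ι (sh j f) := by
  have hinv : ∀ g, U⁻¹ (ι g) = ι (sh (-1) g) := by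
    intro g
    have : U (ι (sh (-1) g)) = ι g := by
      rw [h.shf, sh_sh]
      norm_num
      rw [sh_zero]
    rw [← this]
    exact U.symm_apply_apply _
  induction j using Int.induction_on generalizing f with
  | zero => simp [sh_zero]
  | succ j ih =>
    rw [zpow_add_one]
    show (U ^ (j : ℤ)) (U (ι f)) = _
    rw [h.shf, ih, sh_sh]
  | pred j ih =>
    rw [zpow_sub_one]
    show (U ^ (-(j : ℤ))) (U⁻¹ (ι f)) = _
    rw [hinv, ih, sh_sh]
    rfl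

theorem chr_eig (h : Gns m U ι) (θ : Circle) : U (ι (chr θ)) = (θ : ℂ) • ι (chr θ) := by
  rw [h.shf, ← map_smul]
  congr 1
  ext n
  simp only [sh_apply, chr_apply, BoundedContinuousFunction.coe_smul, smul_eq_mul]
  rw [zpow_add_one, Circle.coe_mul, mul_comm]

theorem orth (h : Gns m U ι) : Orthonormal ℂ (fun θ : Circle => ι (chr θ)) := by
  constructor
  · intro θ
    have h1 : inner ℂ (ι (chr θ)) (ι (chr θ)) = (1 : ℂ) := by
      rw [h.inn2, star_chr_mul, h.inn_one]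
    have h2 : ‖ι (chr θ)‖ ^ 2 = 1 := by
      rw [← inner_self_eq_norm_sq (𝕜 := ℂ), h1]
      simp
    have h3 := norm_nonneg (ι (chr θ))
    nlinarith
  · intro θ θ' hne
    simp only
    have h1 := U.inner_map_map (ι (chr θ)) (ι (chr θ'))
    rw [h.chr_eig, h.chr_eig, inner_smul_left, inner_smul_right] at h1
    set x := inner ℂ (ι (chr θ)) (ι (chr θ'))
    by_contra hx
    apply hne
    have h2 : (starRingEnd ℂ) (θ : ℂ) * (θ' : ℂ) = 1 := by
      have : ((starRingEnd ℂ) (θ : ℂ) * (θ' : ℂ)) * x = 1 * x := by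
        rw [one_mul, mul_assoc, h1]
      exact mul_right_cancel₀ hx this
    rw [← Circle.coe_inv_eq_conj, ← Circle.coe_mul] at h2
    have h3 : θ⁻¹ * θ' = 1 := by
      ext
      rw [h2]
      simp
    exact (inv_mul_eq_one.mp h3)

end Gns

end Pool.Agent.W932.BQ
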