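import Mathlib
import Pool.Agent.W634.BQ.Stms

/-!
# BQ-KEY, part 2: densities of dominated functionals (MP_31db24_co)
-/

set_option autoImplicit false
open MeasureTheory Filter Topology Finset
open scoped BoundedContinuousFunction CompactlySupported

namespace Pool.Agent.W932.BQ

section dens

variable {Z : Type} [TopologicalSpace Z] [CompactSpace Z] [T2Space Z]
  [MeasurableSpace Z] [BorelSpace Z]

/-- a continuous function as a compactly supported one -/
def toCc (φ : C(Z, ℝ)) : C_c(Z, ℝ) := ⟨φ, HasCompactSupport.of_compactSpace _⟩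

theorem exists_meas (Λ : C(Z, ℝ) →ₗ[ℝ] ℝ) (h : ∀ φ : C(Z, ℝ), (∀ z, 0 ≤ φ z) → 0 ≤ Λ φ) :
    ∃ ν : Measure Z, IsFiniteMeasure ν ∧ ∀ φ : C(Z, ℝ), ∫ z, φ z ∂ν = Λ φ := by
  let Λ0 : C_c(Z, ℝ) →ₗ[ℝ] ℝ :=
    { toFun := fun f => Λ f.toContinuousMap
      map_add' := by
        intro f g
        rw [← map_add]
        rfl
      map_smul' := by
        intro c f
        rw [RingHom.id_apply, ← map_smul]
        rfl }
  let Λ1 : C_c(Z, ℝ) →ₚ[ℝ] ℝ := PositiveLinearMap.mk₀ Λ0 (by
    intro f hf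
    exact h f.toContinuousMap (fun z => hf z))
  refine ⟨RealRMK.rieszMeasure Λ1, inferInstance, fun φ => ?_⟩
  exact RealRMK.integral_rieszMeasure Λ1 (toCc φ)

theorem dens [SecondCountableTopology Z] (μ : Measure Z) [IsProbabilityMeasure μ]
    (Λ : C(Z, ℝ) →ₗ[ℝ] ℝ)
    (h : ∀ φ : C(Z, ℝ), (∀ z, 0 ≤ φ z) → 0 ≤ Λ φ ∧ Λ φ ≤ ∫ z, φ z ∂μ) :
    ∃ f : Z → ℝ, Measurable f ∧ (∀ z, 0 ≤ f z ∧ f z ≤ 1) ∧
      ∀ φ : C(Z, ℝ), Λ φ = ∫ z, φ z * f z ∂μ := by
  have hint : ∀ φ : C(Z, ℝ), Integrable (fun z => φ z) μ := fun φ =>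
    φ.continuous.integrable_of_hasCompactSupport (HasCompactSupport.of_compactSpace _)
  let M : C(Z, ℝ) →ₗ[ℝ] ℝ :=
    { toFun := fun φ => (∫ z, φ z ∂μ) - Λ φ
      map_add' := by
        intro φ ψ
        simp only [ContinuousMap.add_apply, map_add]
        rw [integral_add (hint φ) (hint ψ)]
        ring
      map_smul' := by
        intro c φ
        simp only [ContinuousMap.smul_apply, map_smul, smul_eq_mul, RingHom.id_apply]
        rw [integral_const_mul]
        ring }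
  obtain ⟨ν1, hf1, h1⟩ := exists_meas Λ (fun φ hφ => (h φ hφ).1)
  obtain ⟨ν2, hf2, h2⟩ := exists_meas M (fun φ hφ => sub_nonneg.mpr (h φ hφ).2)
  have hsum : ν1 + ν2 = μ := by
    apply ext_of_forall_integral_eq_of_IsFiniteMeasure
    intro f
    have e1 := h1 f.toContinuousMap
    have e2 := h2 f.toContinuousMap
    have e3 : M f.toContinuousMap = (∫ z, f z ∂μ) - Λ f.toContinuousMap := rfl
    have e1' : ∫ z, f z ∂ν1 = Λ f.toContinuousMap := e1
    have e2' : ∫ z, f z ∂ν2 = M f.toContinuousMap := e2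
    rw [integral_add_measure (f.integrable ν1) (f.integrable ν2), e1', e2', e3]
    ring
  have hle : ν1 ≤ μ := by
    rw [← hsum]
    exact Measure.le_add_right le_rfl
  have hac : ν1 ≪ μ := Measure.absolutelyContinuous_of_le hle
  refine ⟨fun z => min 1 (ν1.rnDeriv μ z).toReal, ?_, ?_, ?_⟩
  · exact measurable_const.min (Measure.measurable_rnDeriv ν1 μ).ennreal_toReal
  · intro z
    exact ⟨le_min (by norm_num) ENNReal.toReal_nonneg, min_le_left _ _⟩
  · intro φ
    rw [← h1 φ, ← integral_rnDeriv_smul hac]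
    apply integral_congr_ae
    filter_upwards [Measure.rnDeriv_le_one_of_le hle] with z hz
    have : (ν1.rnDeriv μ z).toReal ≤ 1 := by
      have := ENNReal.toReal_mono ENNReal.one_ne_top hz
      simpa using this
    rw [min_eq_right this, smul_eq_mul, mul_comm]

end dens

end Pool.Agent.W932.BQ
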