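import Mathlib
import Pool.Agent.W634.BQ.Stms
import Pool.Agent.W634.BQ.Stms2
import Pool.Agent.W932.BQ.Key1
import Pool.Agent.W932.BQ.Key2

/-!
# BQ-KEY, part 3: the isometry from the Kronecker factor (MP_31db24_co)
-/

set_option autoImplicit false
open MeasureTheory Filter Topology Finset
open scoped BoundedContinuousFunction

namespace Pool.Agent.W932.BQ

open Pool.Agent.W634.BQ

/-- the data of `S_grp` -/
structure Chars (G : CG) (Λ : Subgroup Circle) (χ : Λ → C(G.Z, ℂ)) : Prop where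
  add : ∀ θ z w, χ θ (z + w) = χ θ z * χ θ w
  alpha : ∀ θ, χ θ G.α = ((θ : Circle) : ℂ)
  mul : ∀ θ θ' z, χ (θ * θ') z = χ θ z * χ θ' z
  norm : ∀ θ z, ‖χ θ z‖ = 1
  int : ∀ θ, θ ≠ 1 → ∫ z, χ θ z ∂G.μ = 0
  dense : ∀ (φ : C(G.Z, ℂ)) (ε : ℝ), 0 < ε → ∃ a : Λ →₀ ℂ, ∀ z,
        ‖φ z - a.sum (fun θ c => c * χ θ z)‖ ≤ ε

/-- pull back of a complex function -/
noncomputable def Q (G : CG) (φ : C(G.Z, ℂ)) : ℤ →ᵇ ℂ :=
  (BoundedContinuousFunction.mkOfCompact φ).compContinuous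
    ⟨fun n => n • G.α, continuous_of_discreteTopology⟩

theorem Q_apply (G : CG) (φ : C(G.Z, ℂ)) (n : ℤ) : Q G φ n = φ (n • G.α) := rfl

theorem pull_apply (G : CG) (φ : C(G.Z, ℝ)) (n : ℤ) : pull G.α φ n = φ (n • G.α) := rfl

/-- as a linear map -/
noncomputable def Ql (G : CG) : C(G.Z, ℂ) →ₗ[ℂ] (ℤ →ᵇ ℂ) where
  toFun := Q G
  map_add' := by
    intro φ ψ
    rfl
  map_smul' := by
    intro c φ
    rfl

theorem Q_norm (G : CG) (φ : C(G.Z, ℂ)) : ‖Q G φ‖ ≤ ‖φ‖ :=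
  (BoundedContinuousFunction.norm_le (norm_nonneg _)).mpr (fun _ => φ.norm_coe_le_norm _)

theorem Q_star_mul (G : CG) (φ ψ : C(G.Z, ℂ)) : star (Q G φ) * Q G ψ = Q G (star φ * ψ) := by
  ext n
  rfl

/-- complexification of a real function -/
noncomputable def cxm (G : CG) (φ : C(G.Z, ℝ)) : C(G.Z, ℂ) := ⟨fun z => ((φ z : ℝ) : ℂ), by fun_prop⟩

theorem Q_cxm (G : CG) (φ : C(G.Z, ℝ)) : Q G (cxm G φ) = cx (pull G.α φ) := by
  ext n
  rfl

namespace Chars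

variable {G : CG} {Λ : Subgroup Circle} {χ : Λ → C(G.Z, ℂ)}

theorem ne_zero (h : Chars G Λ χ) (θ : Λ) (z : G.Z) : χ θ z ≠ 0 := by
  intro h0
  have := h.norm θ z
  rw [h0, norm_zero] at this
  exact zero_ne_one this

theorem one (h : Chars G Λ χ) : χ 1 = 1 := by
  ext z
  have h1 := h.mul 1 1 z
  rw [mul_one] at h1
  have h2 := h.ne_zero 1 z
  have h3 : χ 1 z * χ 1 z = χ 1 z * 1 := by rw [← h1, mul_one]
  exact mul_left_cancel₀ h2 h3

theorem zero (h : Chars G Λ χ) (θ : Λ) : χ θ 0 = 1 := by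
  have h1 := h.add θ 0 0
  rw [add_zero] at h1
  have h3 : χ θ 0 * χ θ 0 = χ θ 0 * 1 := by rw [← h1, mul_one]
  exact mul_left_cancel₀ (h.ne_zero θ 0) h3

theorem zsmul (h : Chars G Λ χ) (θ : Λ) (n : ℤ) : χ θ (n • G.α) = (((θ : Circle) ^ n : Circle) : ℂ) := by
  induction n using Int.induction_on with
  | zero => simp [h.zero]
  | succ n ih =>
    rw [add_smul, h.add, ih, one_smul, h.alpha, zpow_add_one, Circle.coe_mul]
  | pred n ih =>
    have h1 : χ θ ((-(n : ℤ) - 1) • G.α) * χ θ G.α = χ θ ((-(n : ℤ)) • G.α) := by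
      rw [← h.add]
      congr 1
      rw [sub_smul, one_smul]
      abel
    rw [ih, h.alpha] at h1
    have h2 : (((θ : Circle) ^ (-(n : ℤ) - 1) : Circle) : ℂ) * ((θ : Circle) : ℂ) =
        (((θ : Circle) ^ (-(n : ℤ)) : Circle) : ℂ) := by
      rw [← Circle.coe_mul, ← zpow_add_one]
      congr 2
      ring
    rw [← h2] at h1
    exact mul_right_cancel₀ (Circle.coe_ne_zero _) h1

theorem Q_chi (h : Chars G Λ χ) (θ : Λ) : Q G (χ θ) = chr θ := by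
  ext n
  rw [Q_apply, h.zsmul, chr_apply]

/-- a bounded linear functional vanishing at the characters vanishes -/
theorem vanish (h : Chars G Λ χ) (T : C(G.Z, ℂ) →ₗ[ℂ] ℂ) (K : ℝ) (hK : ∀ φ, ‖T φ‖ ≤ K * ‖φ‖)
    (h0 : ∀ θ, T (χ θ) = 0) (φ : C(G.Z, ℂ)) : T φ = 0 := by
  by_contra hne
  have hpos : 0 < ‖T φ‖ := norm_pos_iff.mpr hne
  set K' := |K| + 1 with hK'
  have hK'pos : 0 < K' := by positivity
  obtain ⟨a, ha⟩ := h.dense φ (‖T φ‖ / (2 * K')) (by positivity)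
  set p : C(G.Z, ℂ) := a.sum (fun θ c => c • χ θ) with hp
  have hpz : ∀ z, p z = a.sum (fun θ c => c * χ θ z) := by
    intro z
    rw [hp, Finsupp.sum, Finsupp.sum, ContinuousMap.sum_apply]
    rfl
  have hTp : T p = 0 := by
    rw [hp, Finsupp.sum, map_sum]
    apply Finset.sum_eq_zero
    intro θ _
    rw [map_smul, h0, smul_zero]
  have h1 : ‖φ - p‖ ≤ ‖T φ‖ / (2 * K') := by
    rw [ContinuousMap.norm_le _ (by positivity)]
    intro z
    rw [ContinuousMap.sub_apply, hpz]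
    exact ha z
  have h2 : ‖T φ‖ ≤ K * ‖φ - p‖ := by
    have := hK (φ - p)
    rwa [map_sub, hTp, sub_zero] at this
  have h3 : K * ‖φ - p‖ ≤ K' * (‖T φ‖ / (2 * K')) := by
    have : K ≤ K' := by
      have := le_abs_self K
      linarith
    calc K * ‖φ - p‖ ≤ K' * ‖φ - p‖ := mul_le_mul_of_nonneg_right this (norm_nonneg _)
      _ ≤ _ := mul_le_mul_of_nonneg_left h1 hK'pos.le
  have h4 : K' * (‖T φ‖ / (2 * K')) = ‖T φ‖ / 2 := by
    field_simp
  linarith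

end Chars

variable {H : Type} [NormedAddCommGroup H] [InnerProductSpace ℂ H]
variable {m : (ℤ →ᵇ ℝ) →ₗ[ℝ] ℝ} {U : H ≃ₗᵢ[ℂ] H} {ι : (ℤ →ᵇ ℂ) →ₗ[ℂ] H}
variable {G : CG} {Λ : Subgroup Circle} {χ : Λ → C(G.Z, ℂ)}

theorem cint (G : CG) (φ : C(G.Z, ℂ)) : Integrable (fun z => φ z) G.μ :=
  φ.continuous.integrable_of_hasCompactSupport (HasCompactSupport.of_compactSpace _)

theorem rint (G : CG) (φ : C(G.Z, ℝ)) : Integrable (fun z => φ z) G.μ :=
  φ.continuous.integrable_of_hasCompactSupport (HasCompactSupport.of_compactSpace _)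

theorem mean_int (hg : Gns m U ι) (hc : Chars G Λ χ) (φ : C(G.Z, ℂ)) :
    inner ℂ (ι 1) (ι (Q G φ)) = ∫ z, φ z ∂G.μ := by
  let T : C(G.Z, ℂ) →ₗ[ℂ] ℂ :=
    { toFun := fun φ => inner ℂ (ι 1) (ι (Q G φ)) - ∫ z, φ z ∂G.μ
      map_add' := by
        intro φ ψ
        have e : Q G (φ + ψ) = Q G φ + Q G ψ := rfl
        simp only [ContinuousMap.add_apply]
        rw [e, map_add, inner_add_right, integral_add (cint G φ) (cint G ψ)]
        ring
      map_smul' := by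
        intro c φ
        have e : Q G (c • φ) = c • Q G φ := rfl
        simp only [ContinuousMap.smul_apply, smul_eq_mul, RingHom.id_apply]
        rw [e, map_smul, inner_smul_right, integral_const_mul]
        ring }
  have hT : ∀ φ, T φ = inner ℂ (ι 1) (ι (Q G φ)) - ∫ z, φ z ∂G.μ := fun _ => rfl
  have h1 : T φ = 0 := by
    apply hc.vanish T 2
    · intro φ
      rw [hT]
      have a1 : ‖inner ℂ (ι 1) (ι (Q G φ))‖ ≤ ‖φ‖ := by
        have b1 := norm_inner_le_norm (𝕜 := ℂ) (ι 1) (ι (Q G φ))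
        have b2 := hg.norm_le 1
        have b3 := (hg.norm_le (Q G φ)).trans (Q_norm G φ)
        have b4 : ‖(1 : ℤ →ᵇ ℂ)‖ = 1 := norm_one
        rw [b4] at b2
        calc _ ≤ ‖ι 1‖ * ‖ι (Q G φ)‖ := b1
          _ ≤ 1 * ‖φ‖ := mul_le_mul b2 b3 (norm_nonneg _) (by norm_num)
          _ = ‖φ‖ := one_mul _
      have a2 : ‖∫ z, φ z ∂G.μ‖ ≤ ‖φ‖ := by
        have := norm_integral_le_of_norm_le_const (μ := G.μ) (f := fun z => φ z) (C := ‖φ‖)
          (Filter.Eventually.of_forall (fun z => φ.norm_coe_le_norm z))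
        simpa using this
      have a3 := norm_sub_le (inner ℂ (ι 1) (ι (Q G φ))) (∫ z, φ z ∂G.μ)
      linarith
    · intro θ
      rw [hT, hc.Q_chi]
      by_cases h1 : θ = 1
      · subst h1
        rw [hc.one]
        have : ((1 : Λ) : Circle) = 1 := rfl
        rw [this, chr_one, hg.inn_one]
        simp
      · rw [hc.int θ h1]
        have h2 := hg.orth.2 (i := 1) (j := (θ : Circle)) (by
          intro h3
          apply h1
          ext
          rw [← h3]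
          rfl)
        simp only at h2
        rw [chr_one] at h2
        rw [h2, sub_zero]
  rw [hT] at h1
  exact sub_eq_zero.mp h1

theorem mean_real (hg : Gns m U ι) (hc : Chars G Λ χ) (φ : C(G.Z, ℝ)) :
    m (pull G.α φ) = ∫ z, φ z ∂G.μ := by
  have h1 := mean_int hg hc (cxm G φ)
  rw [Q_cxm, hg.inn_cx] at h1
  have h2 : ∫ z, (cxm G φ) z ∂G.μ = ((∫ z, φ z ∂G.μ : ℝ) : ℂ) := by
    exact integral_ofReal (𝕜 := ℂ) (f := fun z => φ z) (μ := G.μ)
  rw [h2] at h1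
  exact_mod_cast h1

theorem J0_inner (hg : Gns m U ι) (hc : Chars G Λ χ) (φ ψ : C(G.Z, ℂ)) :
    inner ℂ (ι (Q G φ)) (ι (Q G ψ)) =
      inner ℂ (ContinuousMap.toLp (E := ℂ) 2 G.μ ℂ φ) (ContinuousMap.toLp (E := ℂ) 2 G.μ ℂ ψ) := by
  rw [hg.inn2, Q_star_mul, mean_int hg hc, ContinuousMap.inner_toLp]
  congr 1
  funext z
  simp [mul_comm]

variable [CompleteSpace H]

theorem exists_J (hg : Gns m U ι) (hc : Chars G Λ χ) : ∃ J : Lp ℂ 2 G.μ →L[ℂ] H,
    (∀ φ : C(G.Z, ℂ), J (ContinuousMap.toLp (E := ℂ) 2 G.μ ℂ φ) = ι (Q G φ)) ∧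
    ∀ x y, inner ℂ (J x) (J y) = inner ℂ x y := by
  have hd : DenseRange (ContinuousMap.toLp (E := ℂ) 2 G.μ ℂ) :=
    ContinuousMap.toLp_denseRange ℂ G.μ ℂ (by norm_num)
  let J0 : C(G.Z, ℂ) →ₗ[ℂ] H := ι.comp (Ql G)
  let e : C(G.Z, ℂ) →ₗ[ℂ] Lp ℂ 2 G.μ := (ContinuousMap.toLp (E := ℂ) 2 G.μ ℂ).toLinearMap
  have hb : ∃ C, ∀ x, ‖J0 x‖ ≤ C * ‖e x‖ := by
    refine ⟨1, fun φ => ?_⟩
    rw [one_mul]
    apply le_of_sq_le_sq _ (norm_nonneg _)
    have h1 := J0_inner hg hc φ φ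
    have h2 := inner_self_eq_norm_sq (𝕜 := ℂ) (ι (Q G φ))
    have h3 := inner_self_eq_norm_sq (𝕜 := ℂ) (ContinuousMap.toLp (E := ℂ) 2 G.μ ℂ φ)
    rw [h1, h3] at h2
    exact h2.symm.le
  have hJ : ∀ φ : C(G.Z, ℂ), (J0.extendOfNorm e) (ContinuousMap.toLp (E := ℂ) 2 G.μ ℂ φ) =
      ι (Q G φ) := fun φ => LinearMap.extendOfNorm_eq (f := J0) (e := e) hd hb φ
  refine ⟨J0.extendOfNorm e, hJ, ?_⟩
  intro x y
  have hcl : IsClosed {p : Lp ℂ 2 G.μ × Lp ℂ 2 G.μ |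
      inner ℂ ((J0.extendOfNorm e) p.1) ((J0.extendOfNorm e) p.2) = inner ℂ p.1 p.2} := by
    apply isClosed_eq <;> fun_prop
  have := hd.induction_on₂ (p := fun x y => inner ℂ ((J0.extendOfNorm e) x)
    ((J0.extendOfNorm e) y) = inner ℂ x y) hcl (by
      intro φ ψ
      rw [hJ, hJ]
      exact J0_inner hg hc φ ψ) x y
  exact this

end Pool.Agent.W932.BQ
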