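import Mathlib
import Pool.Agent.W634.BQ.Stms
import Pool.Agent.W634.BQ.Stms2
import Pool.Agent.W932.BQ.Key1
import Pool.Agent.W932.BQ.Key2
import Pool.Agent.W932.BQ.Key3

/-!
# BQ-KEY: Kronecker factor and correlations along squares (MP_31db24_co)
-/

set_option autoImplicit false
open MeasureTheory Filter Topology Finset
open scoped BoundedContinuousFunction

namespace Pool.Agent.W932.BQ

open Pool.Agent.W634.BQ

variable {H : Type} [NormedAddCommGroup H] [InnerProductSpace ℂ H]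
variable {m : (ℤ →ᵇ ℝ) →ₗ[ℝ] ℝ} {U : H ≃ₗᵢ[ℂ] H} {ι : (ℤ →ᵇ ℂ) →ₗ[ℂ] H}
variable {G : CG} {Λ : Subgroup Circle} {χ : Λ → C(G.Z, ℂ)}

theorem exists_dens (hg : Gns m U ι) (hc : Chars G Λ χ) (A : Set ℤ) :
    ∃ fA : G.Z → ℝ, Measurable fA ∧ (∀ z, 0 ≤ fA z ∧ fA z ≤ 1) ∧
      ∀ φ : C(G.Z, ℝ), m (pull G.α φ * ind A) = ∫ z, φ z * fA z ∂G.μ := by
  let L : C(G.Z, ℝ) →ₗ[ℝ] ℝ :=
    { toFun := fun φ => m (pull G.α φ * ind A)
      map_add' := by
        intro φ ψ
        have e : pull G.α (φ + ψ) = pull G.α φ + pull G.α ψ := rfl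
        rw [e, add_mul, map_add]
      map_smul' := by
        intro c φ
        have e : pull G.α (c • φ) = c • pull G.α φ := rfl
        rw [e, smul_mul_assoc, map_smul]
        rfl }
  have hind : ∀ n, 0 ≤ ind A n ∧ ind A n ≤ 1 := by
    intro n
    rw [ind_apply]
    by_cases h : n ∈ A <;> simp [h]
  obtain ⟨f, h1, h2, h3⟩ := dens G.μ L (by
    intro φ hφ
    constructor
    · apply hg.mean.pos
      intro n
      exact mul_nonneg (hφ _) (hind n).1
    · rw [← mean_real hg hc]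
      apply hg.mono
      intro n
      have : (pull G.α φ * ind A) n = φ (n • G.α) * ind A n := rfl
      rw [this, pull_apply]
      calc φ (n • G.α) * ind A n ≤ φ (n • G.α) * 1 :=
            mul_le_mul_of_nonneg_left (hind n).2 (hφ _)
        _ = _ := mul_one _)
  exact ⟨f, h1, h2, h3⟩

/-- density property of `f` for the set `A` -/
structure Den (m : (ℤ →ᵇ ℝ) →ₗ[ℝ] ℝ) (G : CG) (A : Set ℤ) (f : G.Z → ℝ) : Prop where
  meas : Measurable f
  bd : ∀ z, 0 ≤ f z ∧ f z ≤ 1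
  eq : ∀ φ : C(G.Z, ℝ), m (pull G.α φ * ind A) = ∫ z, φ z * f z ∂G.μ

theorem Den.memLp {A : Set ℤ} {f : G.Z → ℝ} (hf : Den m G A f) :
    MemLp (fun z => ((f z : ℝ) : ℂ)) 2 G.μ := by
  apply MemLp.of_bound (C := 1)
  · exact (Complex.measurable_ofReal.comp hf.meas).aestronglyMeasurable
  · filter_upwards with z
    rw [Complex.norm_real, Real.norm_eq_abs, abs_of_nonneg (hf.bd z).1]
    exact (hf.bd z).2

/-- as an element of `L²` -/
noncomputable def Den.lp {A : Set ℤ} {f : G.Z → ℝ} (hf : Den m G A f) : Lp ℂ 2 G.μ :=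
  hf.memLp.toLp _

theorem Den.mul_int {A : Set ℤ} {f : G.Z → ℝ} (hf : Den m G A f) (φ : C(G.Z, ℝ)) :
    Integrable (fun z => φ z * f z) G.μ := by
  apply Integrable.mul_bdd (rint G φ) (c := 1)
  · exact hf.meas.aestronglyMeasurable
  · filter_upwards with z
    rw [Real.norm_eq_abs, abs_of_nonneg (hf.bd z).1]
    exact (hf.bd z).2

theorem Den.complex (hg : Gns m U ι) {A : Set ℤ} {f : G.Z → ℝ} (hf : Den m G A f)
    (φ : C(G.Z, ℂ)) :
    inner ℂ (ι (cx (ind A))) (ι (Q G φ)) = ∫ z, φ z * ((f z : ℝ) : ℂ) ∂G.μ := by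
  rw [hg.inn, star_cx]
  set φr : C(G.Z, ℝ) := ⟨fun z => (φ z).re, by fun_prop⟩ with hr
  set φi : C(G.Z, ℝ) := ⟨fun z => (φ z).im, by fun_prop⟩ with hi
  have e1 : cre (cx (ind A) * Q G φ) = pull G.α φr * ind A := by
    ext n
    rw [cre_apply]
    show (cx (ind A) n * Q G φ n).re = φr (n • G.α) * ind A n
    rw [cx_apply, Q_apply, Complex.re_ofReal_mul, mul_comm]
    rfl
  have e2 : cim (cx (ind A) * Q G φ) = pull G.α φi * ind A := by
    ext n
    rw [cim_apply]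
    show (cx (ind A) n * Q G φ n).im = φi (n • G.α) * ind A n
    rw [cx_apply, Q_apply, Complex.im_ofReal_mul, mul_comm]
    rfl
  rw [e1, e2, hf.eq, hf.eq]
  have e3 : ∀ z, φ z * ((f z : ℝ) : ℂ) = ((φr z * f z : ℝ) : ℂ) + ((φi z * f z : ℝ) : ℂ) * Complex.I := by
    intro z
    have : φ z = ((φr z : ℝ) : ℂ) + ((φi z : ℝ) : ℂ) * Complex.I := (Complex.re_add_im (φ z)).symm
    rw [this]
    push_cast
    ring
  simp only [e3]
  rw [integral_add (hf.mul_int φr).ofReal ((hf.mul_int φi).ofReal.mul_const _), integral_mul_const]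
  congr 1
  · exact (integral_ofReal (𝕜 := ℂ) (f := fun z => φr z * f z) (μ := G.μ)).symm
  · congr 1
    exact (integral_ofReal (𝕜 := ℂ) (f := fun z => φi z * f z) (μ := G.μ)).symm

variable {J : Lp ℂ 2 G.μ →L[ℂ] H}

theorem hd (G : CG) : DenseRange (ContinuousMap.toLp (E := ℂ) 2 G.μ ℂ) :=
  ContinuousMap.toLp_denseRange ℂ G.μ ℂ (by norm_num)

theorem Den.adj (hg : Gns m U ι)
    (hJ : ∀ φ : C(G.Z, ℂ), J (ContinuousMap.toLp (E := ℂ) 2 G.μ ℂ φ) = ι (Q G φ))
    {A : Set ℤ} {f : G.Z → ℝ} (hf : Den m G A f) (x : Lp ℂ 2 G.μ) :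
    inner ℂ (ι (cx (ind A))) (J x) = inner ℂ hf.lp x := by
  refine (hd G).induction_on x ?_ ?_
  · apply isClosed_eq <;> fun_prop
  · intro φ
    rw [hJ, hf.complex hg, L2.inner_def]
    apply integral_congr_ae
    filter_upwards [hf.memLp.coeFn_toLp, ContinuousMap.coeFn_toLp (p := 2) (𝕜 := ℂ) G.μ φ] with z h1 h2
    have h1' : hf.lp z = ((f z : ℝ) : ℂ) := h1
    rw [h1', h2]
    simp

/-- translation -/
def trs (G : CG) (j : ℤ) (z : G.Z) : G.Z := z + j • G.α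

theorem trs_mp (G : CG) (j : ℤ) : MeasurePreserving (trs G j) G.μ G.μ :=
  measurePreserving_add_right G.μ (j • G.α)

theorem trs_cont (G : CG) (j : ℤ) : Continuous (trs G j) := by
  unfold trs
  fun_prop

/-- translation on `L²` -/
noncomputable def τ (G : CG) (j : ℤ) (x : Lp ℂ 2 G.μ) : Lp ℂ 2 G.μ :=
  Lp.compMeasurePreserving (trs G j) (trs_mp G j) x

theorem τ_cont (G : CG) (j : ℤ) : Continuous (τ G j) :=
  (Lp.isometry_compMeasurePreserving (trs_mp G j)).continuous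

theorem τ_toLp (G : CG) (j : ℤ) (φ : C(G.Z, ℂ)) :
    τ G j (ContinuousMap.toLp (E := ℂ) 2 G.μ ℂ φ) =
      ContinuousMap.toLp (E := ℂ) 2 G.μ ℂ (φ.comp ⟨trs G j, trs_cont G j⟩) := by
  apply Lp.ext
  have h1 := Lp.coeFn_compMeasurePreserving (ContinuousMap.toLp (E := ℂ) 2 G.μ ℂ φ) (trs_mp G j)
  have h2 := ContinuousMap.coeFn_toLp (p := 2) (𝕜 := ℂ) G.μ (φ.comp ⟨trs G j, trs_cont G j⟩)
  have h3 := (trs_mp G j).quasiMeasurePreserving.ae (ContinuousMap.coeFn_toLp (p := 2) (𝕜 := ℂ) G.μ φ)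
  filter_upwards [h1, h2, h3] with z g1 g2 g3
  rw [g2]
  refine g1.trans ?_
  exact g3

theorem U_J (hg : Gns m U ι)
    (hJ : ∀ φ : C(G.Z, ℂ), J (ContinuousMap.toLp (E := ℂ) 2 G.μ ℂ φ) = ι (Q G φ))
    (j : ℤ) (x : Lp ℂ 2 G.μ) : (U ^ j) (J x) = J (τ G j x) := by
  refine (hd G).induction_on x ?_ ?_
  · apply isClosed_eq
    · exact (U ^ j).continuous.comp J.continuous
    · exact J.continuous.comp (τ_cont G j)
  · intro φ
    rw [hJ, hg.zpow, τ_toLp, hJ]
    congr 1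
    ext n
    show φ ((n + j) • G.α) = φ (n • G.α + j • G.α)
    rw [add_smul]

theorem corr (hg : Gns m U ι)
    (hJ : ∀ φ : C(G.Z, ℂ), J (ContinuousMap.toLp (E := ℂ) 2 G.μ ℂ φ) = ι (Q G φ))
    {A C : Set ℤ} {f g : G.Z → ℝ} (hf : Den m G A f) (hgd : Den m G C g) (j : ℤ) :
    inner ℂ (ι (cx (ind A))) ((U ^ j) (ι (cx (ind C)) - J hgd.lp)) =
      ((m (ind A * sh j (ind C)) - ∫ z, f z * g (z + j • G.α) ∂G.μ : ℝ) : ℂ) := by
  rw [map_sub, inner_sub_right, hg.zpow, sh_cx, hg.inn2, star_cx, ← cx_mul, hg.inn_cx, U_J hg hJ,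
    hf.adj hg hJ, Complex.ofReal_sub]
  congr 1
  rw [L2.inner_def]
  refine Eq.trans ?_ (integral_ofReal (𝕜 := ℂ) (f := fun z => f z * g (z + j • G.α)) (μ := G.μ))
  apply integral_congr_ae
  have h1 := Lp.coeFn_compMeasurePreserving hgd.lp (trs_mp G j)
  have h3 := (trs_mp G j).quasiMeasurePreserving.ae hgd.memLp.coeFn_toLp
  filter_upwards [h1, h3, hf.memLp.coeFn_toLp] with z g1 g2 g3
  have e1 : hf.lp z = ((f z : ℝ) : ℂ) := g3
  have e2 : τ G j hgd.lp z = ((g (z + j • G.α) : ℝ) : ℂ) := g1.trans g2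
  rw [e1, e2]
  simp [mul_comm]

theorem orth_eig (hg : Gns m U ι) (hc : Chars G Λ χ)
    (hJ : ∀ φ : C(G.Z, ℂ), J (ContinuousMap.toLp (E := ℂ) 2 G.μ ℂ φ) = ι (Q G φ))
    (hJi : ∀ x y, inner ℂ (J x) (J y) = inner ℂ x y)
    {C : Set ℤ} {g : G.Z → ℝ} (hgd : Den m G C g)
    (hC : ∀ θ : Circle, inner ℂ (ι (chr θ)) (ι (cx (ind C))) ≠ 0 → θ ∈ Λ)
    (θ : Circle) (v : H) (hv : U v = (θ : ℂ) • v) :
    inner ℂ v (ι (cx (ind C)) - J hgd.lp) = 0 := by
  obtain ⟨c, rfl⟩ := hg.eig θ v hv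
  rw [inner_smul_left]
  suffices h : inner ℂ (ι (chr θ)) (ι (cx (ind C)) - J hgd.lp) = 0 by
    rw [h, mul_zero]
  rw [inner_sub_right]
  by_cases hθ : θ ∈ Λ
  · have e1 : ι (chr θ) = J (ContinuousMap.toLp (E := ℂ) 2 G.μ ℂ (χ ⟨θ, hθ⟩)) := by
      rw [hJ, hc.Q_chi]
    rw [e1, hJi, ← inner_conj_symm, hgd.adj hg hJ, inner_conj_symm, sub_self]
  · have e1 : inner ℂ (ι (chr θ)) (ι (cx (ind C))) = 0 := by
      by_contra h
      exact hθ (hC θ h)
    have e2 : ∀ x, inner ℂ (ι (chr θ)) (J x) = 0 := by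
      intro x
      refine (hd G).induction_on x ?_ ?_
      · apply isClosed_eq <;> fun_prop
      · intro φ
        rw [hJ]
        let T : C(G.Z, ℂ) →ₗ[ℂ] ℂ := (innerSL ℂ (ι (chr θ))).toLinearMap.comp (ι.comp (Ql G))
        have hT : ∀ φ, T φ = inner ℂ (ι (chr θ)) (ι (Q G φ)) := fun _ => rfl
        rw [← hT]
        apply hc.vanish T 1
        · intro φ
          rw [hT, one_mul]
          have b1 := norm_inner_le_norm (𝕜 := ℂ) (ι (chr θ)) (ι (Q G φ))
          have b2 : ‖ι (chr θ)‖ = 1 := hg.orth.1 θ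
          have b3 := (hg.norm_le (Q G φ)).trans (Q_norm G φ)
          rw [b2, one_mul] at b1
          exact b1.trans b3
        · intro θ'
          rw [hT, hc.Q_chi]
          apply hg.orth.2
          intro h
          apply hθ
          rw [h]
          exact θ'.2
    rw [e1, e2, sub_zero]

theorem countable_closure {S : Set Circle} (hS : S.Countable) :
    ((Subgroup.closure S : Subgroup Circle) : Set Circle).Countable := by
  have := hS.to_subtype
  have h1 : (Subgroup.closure S : Subgroup Circle) =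
      (FreeGroup.lift (fun x : S => (x : Circle))).range := by
    rw [FreeGroup.range_lift_eq_closure, Subtype.range_coe]
  rw [h1, MonoidHom.coe_range]
  exact Set.countable_range _

theorem key : S_gns → S_vdc → S_grp → S_key := by
  intro hgns hvdc hgrp m hm hme r C
  obtain ⟨H, i1, i2, i3, U, ι, -, hinn, hsh, heig⟩ := hgns m hm hme
  have hg : Gns m U ι := ⟨hm, hinn, hsh, heig⟩
  set S : Set Circle := ⋃ i : Fin r, {θ | inner ℂ (ι (chr θ)) (ι (cx (ind (C i)))) ≠ 0} with hS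
  have hScount : S.Countable := by
    apply Set.countable_iUnion
    intro i
    have h1 := hg.orth.inner_products_summable (x := ι (cx (ind (C i))))
    have h2 := h1.countable_support
    refine h2.mono ?_
    intro θ hθ
    simp only [Function.mem_support]
    exact pow_ne_zero 2 (norm_ne_zero_iff.mpr hθ)
  obtain ⟨G, χ, c1, c2, c3, -, c5, c6, c7⟩ := hgrp (Subgroup.closure S) (countable_closure hScount)
  have hc : Chars G (Subgroup.closure S) χ := ⟨c1, c2, c3, c5, c6, c7⟩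
  obtain ⟨J, hJ, hJi⟩ := exists_J hg hc
  choose g hg1 hg2 hg3 using fun i => exists_dens hg hc (C i)
  have hgd : ∀ i, Den m G (C i) (g i) := fun i => ⟨hg1 i, hg2 i, hg3 i⟩
  refine ⟨G, g, hg1, hg2, hg3, ?_⟩
  intro A
  obtain ⟨fA, hf1, hf2, hf3⟩ := exists_dens hg hc A
  have hf : Den m G A fA := ⟨hf1, hf2, hf3⟩
  refine ⟨fA, hf1, hf2, hf3, ?_⟩
  intro i s ε hε
  set f : H := ι (cx (ind (C i))) - J (hgd i).lp with hfdef
  have horth : ∀ (θ : Circle) (v : H), U v = (θ : ℂ) • v → inner ℂ v f = 0 :=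
    orth_eig hg hc hJ hJi (hgd i) (fun θ hθ => Subgroup.subset_closure
      (Set.mem_iUnion.mpr ⟨i, hθ⟩))
  have horth' : ∀ (θ : Circle) (v : H), U v = (θ : ℂ) • v → inner ℂ v ((U ^ s) f) = 0 := by
    intro θ v hv
    have e1 : U ((U ^ (-s)) v) = (θ : ℂ) • ((U ^ (-s)) v) := by
      have : U ((U ^ (-s)) v) = (U ^ (-s)) (U v) := by
        show (U * U ^ (-s)) v = (U ^ (-s) * U) v
        rw [← zpow_one_add, ← zpow_add_one, add_comm]
      rw [this, hv, map_smul]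
    have e2 : v = (U ^ s) ((U ^ (-s)) v) := by
      show v = (U ^ s * U ^ (-s)) v
      rw [← zpow_add, add_neg_cancel, zpow_zero]
      rfl
    rw [e2, LinearIsometryEquiv.inner_map_map]
    exact horth θ _ e1
  obtain ⟨L0, hL0⟩ := hvdc H U ((U ^ s) f) (ι (cx (ind A))) horth' ε hε
  refine ⟨L0, fun L hL N => ?_⟩
  refine le_trans (le_of_eq ?_) (hL0 L hL N)
  apply Finset.sum_congr rfl
  intro n _
  have e3 : (U ^ ((N + n) ^ 2)) ((U ^ s) f) = (U ^ (s + (N + n) ^ 2)) f := by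
    show (U ^ ((N + n) ^ 2) * U ^ s) f = _
    rw [← zpow_add, add_comm]
  rw [e3, hfdef, corr hg hJ hf (hgd i), Complex.norm_real, Real.norm_eq_abs, sq_abs]

end Pool.Agent.W932.BQ
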